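import Mathlib

set_option autoImplicit false

/-!
# Extremal point-line configurations that do not come from a lattice

Let `k ≥ 1`, let `P` be the set of the `16 k⁶` points `(a + b √2, c + d √2)` with `a, b < k` and
`c, d < 4 k²`, and let `L` be the set of the `k⁶` lines `y = (e + f √2) x + (g + h √2)` with
`e, f < k` and `g, h < k²`. There are at least `k⁸` incidences, so the configuration is extremal up
to constants. If a projective transformation maps a set of points of `P` with the same second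
coordinate to points with rational coordinates, it has at most `2 k` members: the cross-ratios of
four collinear points with rational coordinates are rational, and this leads to a nontrivial
quadratic equation for `(a, b)`, whose quadratic part is a multiple of `a² - 2 b²`. So a subset of
`P` with a projective image in the rational plane has at most `32 k⁵` members. The points dual
to the lines have the same property.
-/

namespace Pool.Agent.Results.MP_fad2aa_co.QuadraticFieldGrid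

open Finset

/-- `ℓ` is a line of the plane. -/
def IsLine (ℓ : Set (ℝ × ℝ)) : Prop :=
  ∃ a b c : ℝ, (a ≠ 0 ∨ b ≠ 0) ∧ ℓ = {p | a * p.1 + b * p.2 = c}

/-- The non-vertical line `y = s x - t` dual to the point `(s, t)`. -/
def dualLine (q : ℝ × ℝ) : Set (ℝ × ℝ) := {p | p.2 = q.1 * p.1 - q.2}

open Classical in
/-- The number of incidences between `P` and `L`. -/
noncomputable def incidences (P : Finset (ℝ × ℝ)) (L : Finset (Set (ℝ × ℝ))) : ℕ :=
  ((P ×ˢ L).filter fun x => x.1 ∈ x.2).card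

/-- The projective transformation with matrix `M` maps the point `p` of the affine plane to the
point `q` of the affine plane. -/
def ProjMaps (M : Matrix (Fin 3) (Fin 3) ℝ) (p q : ℝ × ℝ) : Prop :=
  ∃ w : ℝ, w ≠ 0 ∧ M.mulVec ![p.1, p.2, 1] = ![w * q.1, w * q.2, w]

/-- Some projective transformation maps `X` into a lattice section of size at most `s`. -/
def InLatticeSection (X : Finset (ℝ × ℝ)) (s : ℝ) : Prop :=
  ∃ M : Matrix (Fin 3) (Fin 3) ℝ, M.det ≠ 0 ∧ ∃ a b : ℕ, ((a * b : ℕ) : ℝ) ≤ s ∧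
    ∀ p ∈ X, ∃ i j : ℕ, 1 ≤ i ∧ i ≤ a ∧ 1 ≤ j ∧ j ≤ b ∧ ProjMaps M p ((i : ℝ), (j : ℝ))

/-- Some projective transformation maps `X` into the set of the points with rational
coordinates. -/
def InRationalPlane (X : Finset (ℝ × ℝ)) : Prop :=
  ∃ M : Matrix (Fin 3) (Fin 3) ℝ, M.det ≠ 0 ∧
    ∀ p ∈ X, ∃ q r : ℚ, ProjMaps M p ((q : ℝ), (r : ℝ))

/-- The statement of Q1. The set `D` in the last line is the set of the points dual to the lines of
`𝓛'`. -/
def Structure : Prop :=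
  ∀ C₁ c₂ c₃ : ℝ, 0 < C₁ → 0 < c₂ → 0 < c₃ → ∃ (c C : ℝ) (N : ℕ), 0 < c ∧ 0 < C ∧
    ∀ (P : Finset (ℝ × ℝ)) (L : Finset (Set (ℝ × ℝ))), (∀ ℓ ∈ L, IsLine ℓ) →
      N ≤ P.card → N ≤ L.card → c₂ * √(L.card : ℝ) ≤ P.card → (P.card : ℝ) ≤ C₁ * L.card ^ 2 →
      c₃ * (P.card : ℝ) ^ ((2 : ℝ) / 3) * (L.card : ℝ) ^ ((2 : ℝ) / 3) ≤ incidences P L →
      (∃ P' ⊆ P, c * P.card ≤ P'.card ∧ InLatticeSection P' (C * P.card)) ∨
      (∃ D : Finset (ℝ × ℝ), (∀ q ∈ D, dualLine q ∈ L) ∧ c * L.card ≤ D.card ∧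
        InLatticeSection D (C * L.card))

/-- `a + b √2` -/
noncomputable def z (a b : ℕ) : ℝ := a + b * √2

theorem z_inj {a b a' b' : ℕ} (h : z a b = z a' b') : a = a' ∧ b = b' := by
  unfold z at h
  have hirr : Irrational (√2) := irrational_sqrt_two
  have hb : (b : ℤ) = b' := by
    by_contra hne
    have hne' : ((b : ℤ) - b' : ℤ) ≠ 0 := sub_ne_zero.2 hne
    have h1 : √2 = (((a' : ℤ) - a : ℤ) : ℝ) / (((b : ℤ) - b' : ℤ) : ℝ) := by
      rw [eq_div_iff (by exact_mod_cast hne')]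
      push_cast
      linarith
    exact hirr ⟨(((a' : ℤ) - a : ℤ) : ℚ) / (((b : ℤ) - b' : ℤ) : ℚ), by rw [h1]; push_cast; ring⟩
  have hb' : b = b' := by exact_mod_cast hb
  subst hb'
  refine ⟨?_, rfl⟩
  have : (a : ℝ) = a' := by linarith
  exact_mod_cast this

/-- the grid `{a + b √2 : a, b < k}` -/
noncomputable def grid (k : ℕ) : Finset ℝ :=
  (range k ×ˢ range k).image fun x => z x.1 x.2

theorem card_grid (k : ℕ) : (grid k).card = k * k := by
  unfold grid
  rw [card_image_of_injective, card_product, card_range]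
  rintro ⟨a, b⟩ ⟨a', b'⟩ h
  obtain ⟨h1, h2⟩ := z_inj h
  exact Prod.ext h1 h2

theorem mem_grid {k : ℕ} {x : ℝ} : x ∈ grid k ↔ ∃ a b, a < k ∧ b < k ∧ z a b = x := by
  unfold grid
  simp only [mem_image, mem_product, mem_range, Prod.exists]
  constructor
  · rintro ⟨a, b, ⟨h1, h2⟩, h3⟩
    exact ⟨a, b, h1, h2, h3⟩
  · rintro ⟨a, b, h1, h2, h3⟩
    exact ⟨a, b, ⟨h1, h2⟩, h3⟩

/-- a quadratic equation has at most two solutions -/
theorem card_quadratic (S : Finset ℕ) (c₂ c₁ c₀ : ℤ) (h : c₂ ≠ 0)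
    (hS : ∀ b ∈ S, c₂ * (b : ℤ) ^ 2 + c₁ * b + c₀ = 0) : S.card ≤ 2 := by
  by_contra hc
  push Not at hc
  obtain ⟨x, hx, y, hy, w, hw, hxy, hxw, hyw⟩ := two_lt_card.1 hc
  have h1 := hS x hx
  have h2 := hS y hy
  have h3 := hS w hw
  have hxy' : ((x : ℤ) - y) ≠ 0 := sub_ne_zero.2 (by exact_mod_cast hxy)
  have hxw' : ((x : ℤ) - w) ≠ 0 := sub_ne_zero.2 (by exact_mod_cast hxw)
  have hyw' : ((y : ℤ) - w) ≠ 0 := sub_ne_zero.2 (by exact_mod_cast hyw)
  have h4 : c₂ * ((x : ℤ) + y) + c₁ = 0 :=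
    mul_left_cancel₀ hxy' (by linear_combination h1 - h2)
  have h5 : c₂ * ((x : ℤ) + w) + c₁ = 0 :=
    mul_left_cancel₀ hxw' (by linear_combination h1 - h3)
  have h6 : c₂ * ((y : ℤ) - w) = 0 := by linear_combination h4 - h5
  rcases mul_eq_zero.1 h6 with h7 | h7
  · exact h h7
  · exact hyw' h7

/-- a linear equation has at most one solution -/
theorem card_linear (S : Finset ℕ) (c₁ c₀ : ℤ) (h : c₁ ≠ 0)
    (hS : ∀ b ∈ S, c₁ * (b : ℤ) + c₀ = 0) : S.card ≤ 1 := by
  rw [card_le_one]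
  intro x hx y hy
  have h1 := hS x hx
  have h2 := hS y hy
  have h3 : c₁ * ((x : ℤ) - y) = 0 := by linear_combination h1 - h2
  rcases mul_eq_zero.1 h3 with h4 | h4
  · exact absurd h4 h
  · have : (x : ℤ) = y := by linarith
    exact_mod_cast this

/-- the quadratic equation expressing that a cross-ratio is rational -/
def E (a₁ b₁ a₂ b₂ w₁ w₀ a b : ℤ) : ℤ :=
  w₁ * ((a - a₁) * (a - a₂) - 2 * ((b - b₁) * (b - b₂))) +
    w₀ * ((a - a₁) * (b - b₂) - (b - b₁) * (a - a₂))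

theorem card_conic (k : ℕ) (S : Finset (ℕ × ℕ)) (hS : S ⊆ range k ×ˢ range k)
    (a₁ b₁ a₂ b₂ w₁ w₀ : ℤ) (hne : a₁ ≠ a₂ ∨ b₁ ≠ b₂) (hw : w₁ = 0 → w₀ ≠ 0)
    (hE : ∀ x ∈ S, E a₁ b₁ a₂ b₂ w₁ w₀ x.1 x.2 = 0) : S.card ≤ 2 * k := by
  have hfst : ∀ x ∈ S, x.1 ∈ range k := fun x hx => (mem_product.1 (hS hx)).1
  have hsnd : ∀ x ∈ S, x.2 ∈ range k := fun x hx => (mem_product.1 (hS hx)).2
  by_cases hw1 : w₁ = 0
  · have hw0 := hw hw1
    by_cases ha : a₁ = a₂
    · have hb : b₁ - b₂ ≠ 0 := sub_ne_zero.2 (by tauto)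
      -- the first coordinate is constant
      have h1 : S.card ≤ 1 * (range k).card := by
        refine card_le_mul_card_image_of_maps_to hsnd 1 ?_
        intro b _
        have hinj : Set.InjOn Prod.fst
            ((S.filter fun x => x.2 = b : Finset (ℕ × ℕ)) : Set (ℕ × ℕ)) := by
          intro x hx y hy hxy
          rw [mem_coe, mem_filter] at hx hy
          exact Prod.ext hxy (hx.2.trans hy.2.symm)
        rw [← card_image_of_injOn hinj]
        refine card_linear _ (w₀ * (b₁ - b₂)) (-(w₀ * (b₁ - b₂)) * a₁) (mul_ne_zero hw0 hb) ?_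
        intro a ha'
        obtain ⟨x, hx, rfl⟩ := mem_image.1 ha'
        have hx' := (mem_filter.1 hx)
        have := hE x hx'.1
        unfold E at this
        rw [hw1, ← ha] at this
        linear_combination this
      rw [card_range] at h1
      omega
    · have ha' : a₂ - a₁ ≠ 0 := sub_ne_zero.2 (Ne.symm ha)
      have h1 : S.card ≤ 1 * (range k).card := by
        refine card_le_mul_card_image_of_maps_to hfst 1 ?_
        intro a _
        have hinj : Set.InjOn Prod.snd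
            ((S.filter fun x => x.1 = a : Finset (ℕ × ℕ)) : Set (ℕ × ℕ)) := by
          intro x hx y hy hxy
          rw [mem_coe, mem_filter] at hx hy
          exact Prod.ext (hx.2.trans hy.2.symm) hxy
        rw [← card_image_of_injOn hinj]
        refine card_linear _ (w₀ * (a₂ - a₁))
          (w₀ * ((a : ℤ) * (b₁ - b₂) + (a₁ * b₂ - b₁ * a₂))) (mul_ne_zero hw0 ha') ?_
        intro b hb
        obtain ⟨x, hx, rfl⟩ := mem_image.1 hb
        have hx' := (mem_filter.1 hx)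
        have h2 := hE x hx'.1
        unfold E at h2
        rw [hw1, hx'.2] at h2
        linear_combination h2
      rw [card_range] at h1
      omega
  · have h1 : S.card ≤ 2 * (range k).card := by
      refine card_le_mul_card_image_of_maps_to hfst 2 ?_
      intro a _
      have hinj : Set.InjOn Prod.snd
          ((S.filter fun x => x.1 = a : Finset (ℕ × ℕ)) : Set (ℕ × ℕ)) := by
        intro x hx y hy hxy
        rw [mem_coe, mem_filter] at hx hy
        exact Prod.ext (hx.2.trans hy.2.symm) hxy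
      rw [← card_image_of_injOn hinj]
      refine card_quadratic _ (-2 * w₁)
        (2 * w₁ * (b₁ + b₂) + w₀ * (a₂ - a₁))
        (w₁ * (((a : ℤ) - a₁) * (a - a₂) - 2 * (b₁ * b₂)) +
          w₀ * ((a : ℤ) * (b₁ - b₂) + (a₁ * b₂ - b₁ * a₂))) (by simpa using hw1) ?_
      intro b hb
      obtain ⟨x, hx, rfl⟩ := mem_image.1 hb
      have hx' := (mem_filter.1 hx)
      have h2 := hE x hx'.1
      unfold E at h2
      rw [hx'.2] at h2
      linear_combination h2
    rwa [card_range] at h1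


theorem rat_indep {p q : ℚ} (h : (p : ℝ) + q * √2 = 0) : p = 0 ∧ q = 0 := by
  have hirr : Irrational (√2) := irrational_sqrt_two
  have hq : q = 0 := by
    by_contra hne
    have hne' : (q : ℝ) ≠ 0 := by exact_mod_cast hne
    refine hirr ⟨-p / q, ?_⟩
    push_cast
    rw [div_eq_iff hne']
    linarith
  subst hq
  refine ⟨?_, rfl⟩
  have : (p : ℝ) = 0 := by simpa using h
  exact_mod_cast this

theorem mobius_cross {α β γ δ x y q r : ℝ} (hx : α * x + β = (γ * x + δ) * q)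
    (hy : α * y + β = (γ * y + δ) * r) :
    (α * δ - β * γ) * (x - y) = (γ * x + δ) * (γ * y + δ) * (q - r) := by
  linear_combination (γ * y + δ) * hx - (γ * x + δ) * hy

/-- a fractional linear map has rational values at no more than `2 k` elements of the grid -/
theorem row_bound (k : ℕ) (hk : 1 ≤ k) (α β γ δ : ℝ) (hdet : α * δ - β * γ ≠ 0) (X : Finset ℝ)
    (hX : X ⊆ grid k)
    (hq : ∀ x ∈ X, ∃ q : ℚ, γ * x + δ ≠ 0 ∧ α * x + β = (γ * x + δ) * q) :
    X.card ≤ 2 * k := by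
  by_contra hc
  push Not at hc
  obtain ⟨x₁, hx₁, x₂, hx₂, x₃, hx₃, h12, h13, h23⟩ := two_lt_card.1 (by omega : 2 < X.card)
  obtain ⟨a₁, b₁, -, -, rfl⟩ := mem_grid.1 (hX hx₁)
  obtain ⟨a₂, b₂, -, -, rfl⟩ := mem_grid.1 (hX hx₂)
  obtain ⟨a₃, b₃, -, -, rfl⟩ := mem_grid.1 (hX hx₃)
  obtain ⟨q₁, hD₁, hq₁⟩ := hq _ hx₁
  obtain ⟨q₂, hD₂, hq₂⟩ := hq _ hx₂
  obtain ⟨q₃, hD₃, hq₃⟩ := hq _ hx₃
  set u₀ : ℤ := a₃ - a₂ with hu₀
  set u₁ : ℤ := b₃ - b₂ with hu₁
  set v₀ : ℤ := a₃ - a₁ with hv₀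
  set v₁ : ℤ := b₃ - b₁ with hv₁
  have hU : ¬ (u₀ = 0 ∧ u₁ = 0) := by
    rintro ⟨h1, h2⟩
    apply h23
    have e1 : a₂ = a₃ := by omega
    have e2 : b₂ = b₃ := by omega
    rw [e1, e2]
  have hV : ¬ (v₀ = 0 ∧ v₁ = 0) := by
    rintro ⟨h1, h2⟩
    apply h13
    have e1 : a₁ = a₃ := by omega
    have e2 : b₁ = b₃ := by omega
    rw [e1, e2]
  have hs2 : √2 * √2 = 2 := Real.mul_self_sqrt (by norm_num)
  have hXS : X ⊆ ((range k ×ˢ range k).filter fun x => z x.1 x.2 ∈ X).image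
      fun x => z x.1 x.2 := by
    intro x hx
    obtain ⟨a, b, ha, hb, rfl⟩ := mem_grid.1 (hX hx)
    exact mem_image.2 ⟨(a, b), mem_filter.2 ⟨mem_product.2 ⟨mem_range.2 ha, mem_range.2 hb⟩, hx⟩,
      rfl⟩
  have hle : X.card ≤ ((range k ×ˢ range k).filter fun x => z x.1 x.2 ∈ X).card :=
    (card_le_card hXS).trans card_image_le
  have hfin : ((range k ×ˢ range k).filter fun x => z x.1 x.2 ∈ X).card ≤ 2 * k := by
    refine card_conic k _ (filter_subset _ _) a₁ b₁ a₂ b₂ (u₀ * v₁ - u₁ * v₀)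
      (u₀ * v₀ - 2 * (u₁ * v₁)) ?_ ?_ ?_
    · by_contra hcon
      push Not at hcon
      obtain ⟨h1, h2⟩ := hcon
      apply h12
      have e1 : a₁ = a₂ := by exact_mod_cast h1
      have e2 : b₁ = b₂ := by exact_mod_cast h2
      rw [e1, e2]
    · intro h1 h2
      have h3 : ((u₀ : ℝ) + u₁ * √2) * ((v₀ : ℝ) + (-v₁ : ℤ) * √2) = 0 := by
        have e1 : (u₀ : ℝ) * v₁ - u₁ * v₀ = 0 := by exact_mod_cast h1
        have e2 : (u₀ : ℝ) * v₀ - 2 * (u₁ * v₁) = 0 := by exact_mod_cast h2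
        push_cast
        linear_combination e2 - √2 * e1 - (u₁ : ℝ) * v₁ * hs2
      rcases mul_eq_zero.1 h3 with h4 | h4
      · have h5 := rat_indep (p := u₀) (q := u₁) (by exact_mod_cast h4)
        exact hU ⟨by exact_mod_cast h5.1, by exact_mod_cast h5.2⟩
      · have h5 := rat_indep (p := v₀) (q := ((-v₁ : ℤ) : ℚ)) (by exact_mod_cast h4)
        have h6 : (-v₁ : ℤ) = 0 := by exact_mod_cast h5.2
        exact hV ⟨by exact_mod_cast h5.1, by omega⟩
    · rintro ⟨a, b⟩ hab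
      obtain ⟨-, hx⟩ := mem_filter.1 hab
      simp only at hx
      by_cases hx2 : z a b = z a₂ b₂
      · obtain ⟨rfl, rfl⟩ := z_inj hx2
        unfold E
        ring
      obtain ⟨q, hD, hq0⟩ := hq _ hx
      have c1 := mobius_cross hq0 hq₁
      have c2 := mobius_cross hq0 hq₂
      have c3 := mobius_cross hq₃ hq₂
      have c4 := mobius_cross hq₃ hq₁
      have hr2 : ((q : ℝ) - q₂) ≠ 0 := by
        intro h
        rw [h, mul_zero] at c2
        rcases mul_eq_zero.1 c2 with h' | h'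
        · exact hdet h'
        · exact hx2 (by linarith)
      have hr4 : ((q₃ : ℝ) - q₁) ≠ 0 := by
        intro h
        rw [h, mul_zero] at c4
        rcases mul_eq_zero.1 c4 with h' | h'
        · exact hdet h'
        · exact h13 (by linarith)
      set Δ := α * δ - β * γ with hΔ
      set D := γ * z a b + δ with hDdef
      set D₁ := γ * z a₁ b₁ + δ
      set D₂ := γ * z a₂ b₂ + δ
      set D₃ := γ * z a₃ b₃ + δ
      have key : (z a b - z a₁ b₁) * (z a₃ b₃ - z a₂ b₂) * (((q : ℝ) - q₂) * (q₃ - q₁)) =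
          (z a b - z a₂ b₂) * (z a₃ b₃ - z a₁ b₁) * (((q : ℝ) - q₁) * (q₃ - q₂)) := by
        have hne : Δ * Δ * (D * D₁ * D₂ * D₃) ≠ 0 := by positivity
        apply mul_left_cancel₀ hne
        have e1 : (Δ * (z a b - z a₁ b₁)) * (Δ * (z a₃ b₃ - z a₂ b₂)) *
            ((D * D₂ * ((q : ℝ) - q₂)) * (D₃ * D₁ * (q₃ - q₁))) =
            (Δ * (z a b - z a₂ b₂)) * (Δ * (z a₃ b₃ - z a₁ b₁)) *
            ((D * D₁ * ((q : ℝ) - q₁)) * (D₃ * D₂ * (q₃ - q₂))) := by
          rw [← c1, ← c2, ← c3, ← c4]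
          ring
        linear_combination e1
      -- coordinates
      set r : ℚ := (q - q₂) * (q₃ - q₁) with hr
      set r' : ℚ := (q - q₁) * (q₃ - q₂) with hr'
      have hr0 : r ≠ 0 := by
        intro h
        have : ((r : ℚ) : ℝ) = 0 := by rw [h]; norm_num
        rw [hr] at this
        push_cast at this
        exact mul_ne_zero hr2 hr4 this
      set p₁ : ℤ := a - a₁ with hp₁
      set p₁' : ℤ := b - b₁ with hp₁'
      set p₂ : ℤ := a - a₂ with hp₂
      set p₂' : ℤ := b - b₂ with hp₂'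
      have hkey2 : (((r * (p₁ * u₀ + 2 * p₁' * u₁) - r' * (p₂ * v₀ + 2 * p₂' * v₁) : ℚ)) : ℝ) +
          ((r * (p₁ * u₁ + p₁' * u₀) - r' * (p₂ * v₁ + p₂' * v₀) : ℚ) : ℝ) * √2 = 0 := by
        rw [hr, hr', hp₁, hp₁', hp₂, hp₂', hu₀, hu₁, hv₀, hv₁]
        unfold z at key
        push_cast
        linear_combination key - ((q : ℝ) - q₂) * (q₃ - q₁) * ((b : ℝ) - b₁) * (b₃ - b₂) * hs2 +
          ((q : ℝ) - q₁) * (q₃ - q₂) * ((b : ℝ) - b₂) * (b₃ - b₁) * hs2
      obtain ⟨k1, k2⟩ := rat_indep hkey2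
      have hE : (r : ℚ) * ((E a₁ b₁ a₂ b₂ (u₀ * v₁ - u₁ * v₀) (u₀ * v₀ - 2 * (u₁ * v₁)) a b : ℤ) :
          ℚ) = 0 := by
        have hEdef : E a₁ b₁ a₂ b₂ (u₀ * v₁ - u₁ * v₀) (u₀ * v₀ - 2 * (u₁ * v₁)) a b =
            (p₁ * u₀ + 2 * p₁' * u₁) * (p₂ * v₁ + p₂' * v₀) -
            (p₁ * u₁ + p₁' * u₀) * (p₂ * v₀ + 2 * p₂' * v₁) := by
          unfold E
          rw [← hp₁, ← hp₁', ← hp₂, ← hp₂']
          ring
        rw [hEdef]
        push_cast
        linear_combination ((p₂ : ℚ) * v₁ + p₂' * v₀) * k1 - ((p₂ : ℚ) * v₀ + 2 * p₂' * v₁) * k2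
      rcases mul_eq_zero.1 hE with h | h
      · exact absurd h hr0
      · exact_mod_cast h
  omega

/-- A set of points, whose first coordinates are in the grid, with a projective image in the rational
plane has at most `2 k` members with given second coordinate. -/
theorem proj_row (k : ℕ) (hk : 1 ≤ k) (M : Matrix (Fin 3) (Fin 3) ℝ) (hM : M.det ≠ 0)
    (X : Finset (ℝ × ℝ)) (hX : ∀ p ∈ X, p.1 ∈ grid k) (y : ℝ) (hy : ∀ p ∈ X, p.2 = y)
    (hq : ∀ p ∈ X, ∃ q r : ℚ, ProjMaps M p ((q : ℝ), (r : ℝ))) : X.card ≤ 2 * k := by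
  classical
  rcases X.eq_empty_or_nonempty with rfl | ⟨p₀, hp₀⟩
  · simp
  have hcoord : ∀ p ∈ X, ∃ q r : ℚ, M 2 0 * p.1 + (M 2 1 * y + M 2 2) ≠ 0 ∧
      M 0 0 * p.1 + (M 0 1 * y + M 0 2) = (M 2 0 * p.1 + (M 2 1 * y + M 2 2)) * q ∧
      M 1 0 * p.1 + (M 1 1 * y + M 1 2) = (M 2 0 * p.1 + (M 2 1 * y + M 2 2)) * r := by
    intro p hp
    obtain ⟨q, r, w, hw, hmap⟩ := hq p hp
    rw [hy p hp] at hmap
    have h0 := congrFun hmap 0
    have h1 := congrFun hmap 1
    have h2 := congrFun hmap 2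
    simp only [Matrix.mulVec, dotProduct, Fin.sum_univ_three] at h0 h1 h2
    simp at h0 h1 h2
    refine ⟨q, r, ?_, ?_, ?_⟩
    · rw [← add_assoc, h2]
      exact hw
    · rw [← add_assoc, ← add_assoc, h2, h0]
    · rw [← add_assoc, ← add_assoc, h2, h1]
  have hinj : Set.InjOn Prod.fst (X : Set (ℝ × ℝ)) := by
    intro p hp q hq' hpq
    exact Prod.ext hpq ((hy p hp).trans (hy q hq').symm)
  have himg : (X.image Prod.fst) ⊆ grid k := by
    intro x hx
    obtain ⟨p, hp, rfl⟩ := mem_image.1 hx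
    exact hX p hp
  rw [← card_image_of_injOn hinj]
  by_cases h1 : M 0 0 * (M 2 1 * y + M 2 2) - (M 0 1 * y + M 0 2) * M 2 0 = 0
  · by_cases h2 : M 1 0 * (M 2 1 * y + M 2 2) - (M 1 1 * y + M 1 2) * M 2 0 = 0
    · exfalso
      have hz : M.mulVec ![M 2 1 * y + M 2 2, -(M 2 0) * y, -(M 2 0)] = 0 := by
        ext i
        fin_cases i
        · simp [Matrix.mulVec, dotProduct, Fin.sum_univ_three]
          linear_combination h1
        · simp [Matrix.mulVec, dotProduct, Fin.sum_univ_three]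
          linear_combination h2
        · simp [Matrix.mulVec, dotProduct, Fin.sum_univ_three]
          ring
      have hz' := Matrix.eq_zero_of_mulVec_eq_zero hM hz
      have e0 := congrFun hz' 0
      have e2 := congrFun hz' 2
      simp at e0 e2
      obtain ⟨q, r, h3, -, -⟩ := hcoord p₀ hp₀
      apply h3
      rw [e0, e2]
      ring
    · refine row_bound k hk _ _ _ _ h2 _ himg ?_
      intro x hx
      obtain ⟨p, hp, rfl⟩ := mem_image.1 hx
      obtain ⟨q, r, h3, -, h5⟩ := hcoord p hp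
      exact ⟨r, h3, h5⟩
  · refine row_bound k hk _ _ _ _ h1 _ himg ?_
    intro x hx
    obtain ⟨p, hp, rfl⟩ := mem_image.1 hx
    obtain ⟨q, r, h3, h4, -⟩ := hcoord p hp
    exact ⟨q, h3, h4⟩

/-- A set of points with first coordinates in the grid and second coordinates in `T`, with a
projective image in the rational plane, has at most `2 k |T|` members. -/
theorem proj_card (k : ℕ) (hk : 1 ≤ k) (T : Finset ℝ) (X : Finset (ℝ × ℝ))
    (hX : X ⊆ grid k ×ˢ T) (hq : InRationalPlane X) : X.card ≤ 2 * k * T.card := by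
  classical
  obtain ⟨M, hM, hmap⟩ := hq
  refine card_le_mul_card_image_of_maps_to (f := Prod.snd)
    (fun p hp => (mem_product.1 (hX hp)).2) (2 * k) ?_
  intro y _
  refine proj_row k hk M hM _ ?_ y ?_ ?_
  · intro p hp
    exact (mem_product.1 (hX (mem_filter.1 hp).1)).1
  · intro p hp
    exact (mem_filter.1 hp).2
  · intro p hp
    exact hmap p (mem_filter.1 hp).1

theorem InLatticeSection.rational {X : Finset (ℝ × ℝ)} {s : ℝ} (h : InLatticeSection X s) :
    InRationalPlane X := by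
  obtain ⟨M, hM, a, b, -, h⟩ := h
  refine ⟨M, hM, fun p hp => ?_⟩
  obtain ⟨i, j, -, -, -, -, hij⟩ := h p hp
  exact ⟨i, j, by push_cast; exact hij⟩

theorem dualLine_inj {q r : ℝ × ℝ} (h : dualLine q = dualLine r) : q = r := by
  have h0 : ((0 : ℝ), -q.2) ∈ dualLine r := by
    rw [← h]
    simp [dualLine]
  have h1 : ((1 : ℝ), q.1 - q.2) ∈ dualLine r := by
    rw [← h]
    simp [dualLine]
  simp only [dualLine, Set.mem_ofPred_eq] at h0 h1
  have e2 : q.2 = r.2 := by linarith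
  exact Prod.ext (by linarith) e2

theorem isLine_dualLine (q : ℝ × ℝ) : IsLine (dualLine q) := by
  refine ⟨q.1, -1, q.2, Or.inr (by norm_num), ?_⟩
  ext p
  simp only [dualLine, Set.mem_ofPred_eq]
  constructor <;> intro h <;> linarith

/-- the set of the numbers `-(a + b √2)` with `a, b < k` -/
noncomputable def negGrid (k : ℕ) : Finset ℝ := (grid k).image fun x => -x

theorem card_negGrid (k : ℕ) : (negGrid k).card = k * k := by
  unfold negGrid
  rw [card_image_of_injective _ neg_injective, card_grid]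

/-- the points -/
noncomputable def pts (k : ℕ) : Finset (ℝ × ℝ) := grid k ×ˢ grid (4 * k ^ 2)

/-- the points dual to the lines -/
noncomputable def duals (k : ℕ) : Finset (ℝ × ℝ) := grid k ×ˢ negGrid (k ^ 2)

open Classical in
/-- the lines -/
noncomputable def lns (k : ℕ) : Finset (Set (ℝ × ℝ)) := (duals k).image dualLine

theorem card_pts (k : ℕ) : (pts k).card = 16 * k ^ 6 := by
  unfold pts
  rw [card_product, card_grid, card_grid]
  ring

theorem card_duals (k : ℕ) : (duals k).card = k ^ 6 := by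
  unfold duals
  rw [card_product, card_grid, card_negGrid]
  ring

theorem card_lns (k : ℕ) : (lns k).card = k ^ 6 := by
  classical
  unfold lns
  rw [card_image_of_injective _ (fun q r h => dualLine_inj h), card_duals]

theorem z_mem {k a b : ℕ} (ha : a < k) (hb : b < k) : z a b ∈ grid k := mem_grid.2 ⟨a, b, ha, hb, rfl⟩

theorem z_mul_add (e f a b g h : ℕ) :
    z e f * z a b + z g h = z (e * a + 2 * (f * b) + g) (e * b + f * a + h) := by
  have hs2 : √2 * √2 = 2 := Real.mul_self_sqrt (by norm_num)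
  unfold z
  push_cast
  linear_combination (f : ℝ) * b * hs2

theorem le_incidences (k : ℕ) : k ^ 8 ≤ incidences (pts k) (lns k) := by
  classical
  have hcard : (((range k ×ˢ range k) ×ˢ (range (k ^ 2) ×ˢ range (k ^ 2))) ×ˢ
      (range k ×ˢ range k)).card = k ^ 8 := by
    simp only [card_product, card_range]
    ring
  rw [← hcard]
  unfold incidences
  refine card_le_card_of_injOn (fun x => ((z x.2.1 x.2.2,
    z (x.1.1.1 * x.2.1 + 2 * (x.1.1.2 * x.2.2) + x.1.2.1)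
      (x.1.1.1 * x.2.2 + x.1.1.2 * x.2.1 + x.1.2.2)),
      dualLine (z x.1.1.1 x.1.1.2, -z x.1.2.1 x.1.2.2))) ?_ ?_
  · rintro ⟨⟨⟨e, f⟩, ⟨g, h⟩⟩, ⟨a, b⟩⟩ hx
    simp only [coe_product, Set.mem_prod, coe_range, Set.mem_Iio] at hx
    obtain ⟨⟨⟨he, hf⟩, hg, hh⟩, ha, hb⟩ := hx
    rw [mem_coe, mem_filter, mem_product]
    have b1 : e * a ≤ k ^ 2 := by
      rw [pow_two]; exact Nat.mul_le_mul he.le ha.le
    have b2 : f * b ≤ k ^ 2 := by
      rw [pow_two]; exact Nat.mul_le_mul hf.le hb.le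
    have b3 : e * b ≤ k ^ 2 := by
      rw [pow_two]; exact Nat.mul_le_mul he.le hb.le
    have b4 : f * a ≤ k ^ 2 := by
      rw [pow_two]; exact Nat.mul_le_mul hf.le ha.le
    refine ⟨⟨?_, ?_⟩, ?_⟩
    · exact mem_product.2 ⟨z_mem ha hb, z_mem (by simp only; omega) (by simp only; omega)⟩
    · refine mem_image.2 ⟨_, ?_, rfl⟩
      exact mem_product.2 ⟨z_mem he hf, mem_image.2 ⟨_, z_mem hg hh, rfl⟩⟩
    · simp only [dualLine, Set.mem_ofPred_eq]
      rw [← z_mul_add]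
      ring
  · rintro ⟨⟨⟨e, f⟩, ⟨g, h⟩⟩, ⟨a, b⟩⟩ - ⟨⟨⟨e', f'⟩, ⟨g', h'⟩⟩, ⟨a', b'⟩⟩ - heq
    simp only [Prod.mk.injEq] at heq
    obtain ⟨⟨h1, -⟩, h3⟩ := heq
    obtain ⟨rfl, rfl⟩ := z_inj h1
    have h4 := dualLine_inj h3
    simp only [Prod.mk.injEq, neg_inj] at h4
    obtain ⟨rfl, rfl⟩ := z_inj h4.1
    obtain ⟨rfl, rfl⟩ := z_inj h4.2
    rfl

/-- For every `k ≥ 1` there are `16 k⁶` points and `k⁶` lines with at least `k⁸` incidences such that
every set of the points with a projective image in the rational plane has at most `32 k⁵` members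
and every set of the points dual to the lines with a projective image in the rational plane has at
most `2 k⁵` members. In particular the answer to Q1 is negative. -/
theorem result :
    (∀ k : ℕ, 1 ≤ k → ∃ (P : Finset (ℝ × ℝ)) (L : Finset (Set (ℝ × ℝ))),
      (∀ ℓ ∈ L, IsLine ℓ) ∧ P.card = 16 * k ^ 6 ∧ L.card = k ^ 6 ∧ k ^ 8 ≤ incidences P L ∧
      (∀ X ⊆ P, InRationalPlane X → X.card ≤ 32 * k ^ 5) ∧
      (∀ D : Finset (ℝ × ℝ), (∀ q ∈ D, dualLine q ∈ L) → InRationalPlane D →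
        D.card ≤ 2 * k ^ 5)) ∧
    ¬ Structure := by
  have hA : ∀ k : ℕ, 1 ≤ k → ∃ (P : Finset (ℝ × ℝ)) (L : Finset (Set (ℝ × ℝ))),
      (∀ ℓ ∈ L, IsLine ℓ) ∧ P.card = 16 * k ^ 6 ∧ L.card = k ^ 6 ∧ k ^ 8 ≤ incidences P L ∧
      (∀ X ⊆ P, InRationalPlane X → X.card ≤ 32 * k ^ 5) ∧
      (∀ D : Finset (ℝ × ℝ), (∀ q ∈ D, dualLine q ∈ L) → InRationalPlane D →
        D.card ≤ 2 * k ^ 5) := by
    classical
    intro k hk
    refine ⟨pts k, lns k, ?_, card_pts k, card_lns k, le_incidences k, ?_, ?_⟩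
    · intro ℓ hℓ
      obtain ⟨q, -, rfl⟩ := mem_image.1 hℓ
      exact isLine_dualLine q
    · intro X hX hrat
      have := proj_card k hk (grid (4 * k ^ 2)) X hX hrat
      rw [card_grid] at this
      calc X.card ≤ 2 * k * (4 * k ^ 2 * (4 * k ^ 2)) := this
        _ = 32 * k ^ 5 := by ring
    · intro D hD hrat
      have hsub : D ⊆ grid k ×ˢ negGrid (k ^ 2) := by
        intro q hq
        obtain ⟨r, hr, hrq⟩ := mem_image.1 (hD q hq)
        rw [← dualLine_inj hrq]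
        exact hr
      have := proj_card k hk (negGrid (k ^ 2)) D hsub hrat
      rw [card_negGrid] at this
      calc D.card ≤ 2 * k * (k ^ 2 * k ^ 2) := this
        _ = 2 * k ^ 5 := by ring
  refine ⟨hA, ?_⟩
  intro hS
  obtain ⟨c, C, N, hc, -, hmain⟩ := hS 16 1 (1 / 9) (by norm_num) (by norm_num) (by norm_num)
  obtain ⟨K, hK⟩ := exists_nat_gt (2 / c)
  set k : ℕ := max (max K N) 1 with hkdef
  have hk1 : 1 ≤ k := le_max_right _ _
  have hkK : K ≤ k := (le_max_left _ _).trans (le_max_left _ _)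
  have hkN : N ≤ k := (le_max_right _ _).trans (le_max_left _ _)
  have hk1' : (1 : ℝ) ≤ k := by exact_mod_cast hk1
  have hk0 : (0 : ℝ) < k := by linarith
  have hck : 2 < c * k := by
    have h1 : (2 / c) < k := lt_of_lt_of_le hK (by exact_mod_cast hkK)
    rw [div_lt_iff₀ hc] at h1
    linarith
  obtain ⟨P, L, hL, hP6, hL6, hI, hX, hD⟩ := hA k hk1
  have hpow : k ≤ k ^ 6 := Nat.le_self_pow (by norm_num) k
  have hPr : (P.card : ℝ) = 16 * (k : ℝ) ^ 6 := by rw [hP6]; push_cast; ring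
  have hLr : (L.card : ℝ) = (k : ℝ) ^ 6 := by rw [hL6]; push_cast; ring
  have hk6 : (1 : ℝ) ≤ (k : ℝ) ^ 6 := one_le_pow₀ hk1'
  have hsq : √((k : ℝ) ^ 6) = (k : ℝ) ^ 3 := by
    rw [show (k : ℝ) ^ 6 = ((k : ℝ) ^ 3) ^ 2 by ring]
    exact Real.sqrt_sq (by positivity)
  have hk36 : (k : ℝ) ^ 3 ≤ (k : ℝ) ^ 6 := pow_le_pow_right₀ hk1' (by norm_num)
  have hcub : ∀ x : ℝ, 0 ≤ x → (x ^ 3) ^ ((2 : ℝ) / 3) = x ^ 2 := by
    intro x hx
    rw [← Real.rpow_natCast x 3, ← Real.rpow_mul hx]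
    norm_num
  have hmain' := hmain P L hL (by rw [hP6]; omega) (by rw [hL6]; omega)
    (by rw [hLr, hsq, hPr]; linarith) (by rw [hPr, hLr]; nlinarith) (by
      rw [hPr, hLr]
      have e1 : (16 * (k : ℝ) ^ 6) ^ ((2 : ℝ) / 3) ≤ 9 * (k : ℝ) ^ 4 := by
        calc (16 * (k : ℝ) ^ 6) ^ ((2 : ℝ) / 3) ≤ ((3 * (k : ℝ) ^ 2) ^ 3) ^ ((2 : ℝ) / 3) := by
              apply Real.rpow_le_rpow (by positivity) _ (by norm_num)
              nlinarith
          _ = (3 * (k : ℝ) ^ 2) ^ 2 := hcub _ (by positivity)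
          _ = 9 * (k : ℝ) ^ 4 := by ring
      have e2 : ((k : ℝ) ^ 6) ^ ((2 : ℝ) / 3) = (k : ℝ) ^ 4 := by
        rw [show (k : ℝ) ^ 6 = ((k : ℝ) ^ 2) ^ 3 by ring, hcub _ (by positivity)]
        ring
      rw [e2]
      have e3 : ((k : ℝ)) ^ 8 ≤ (incidences P L : ℝ) := by exact_mod_cast hI
      calc (1 / 9 : ℝ) * (16 * (k : ℝ) ^ 6) ^ ((2 : ℝ) / 3) * (k : ℝ) ^ 4
          ≤ (1 / 9) * (9 * (k : ℝ) ^ 4) * (k : ℝ) ^ 4 := by
            apply mul_le_mul_of_nonneg_right _ (by positivity)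
            exact mul_le_mul_of_nonneg_left e1 (by norm_num)
        _ = (k : ℝ) ^ 8 := by ring
        _ ≤ _ := e3)
  have hk5 : (0 : ℝ) < (k : ℝ) ^ 5 := by positivity
  rcases hmain' with ⟨P', hP', hcP, hlat⟩ | ⟨D, hDL, hcD, hlat⟩
  · have h1 : (P'.card : ℝ) ≤ 32 * (k : ℝ) ^ 5 := by
      exact_mod_cast hX P' hP' hlat.rational
    rw [hPr] at hcP
    nlinarith [mul_lt_mul_of_pos_right hck hk5]
  · have h1 : (D.card : ℝ) ≤ 2 * (k : ℝ) ^ 5 := by
      exact_mod_cast hD D hDL hlat.rational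
    rw [hLr] at hcD
    nlinarith [mul_lt_mul_of_pos_right hck hk5]

end Pool.Agent.Results.MP_fad2aa_co.QuadraticFieldGrid
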